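import Pool.Agent.W823.SFP.Defs

set_option autoImplicit false

namespace Pool.Agent.W823.SFP

open MeasureTheory ProbabilityTheory

section General

variable {I : Type*} (P : I → Measure ℝ) [∀ i, IsProbabilityMeasure (P i)]

/-- Probability of a cylinder event indexed by an injective family. -/
theorem cyl_prob {ι : Type*} [Fintype ι] (g : ι → I) (hg : Function.Injective g)
    (T : ι → Set ℝ) (hT : ∀ i, MeasurableSet (T i)) :
    Measure.infinitePi P {ω | ∀ i, ω (g i) ∈ T i} = ∏ i, P (g i) (T i) := by
  have h := Measure.map_infinitePi_infinitePi_of_inj (P := P) hg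
  have h2 : Measure.infinitePi P {ω | ∀ i, ω (g i) ∈ T i} =
      (Measure.infinitePi P).map (fun ω i => ω (g i)) (Set.pi Set.univ T) := by
    rw [Measure.map_apply (by fun_prop) (MeasurableSet.univ_pi hT)]
    congr 1
    ext ω; simp
  rw [h2, h, Measure.infinitePi_eq_pi, Measure.pi_pi]

/-- Probability that each of a family of disjoint blocks fails to satisfy a cylinder event. -/
theorem block_prob {ι κ : Type*} [Fintype ι] [Fintype κ] (g : ι × κ → I)
    (hg : Function.Injective g) (T : ι → κ → Set ℝ) (hT : ∀ i k, MeasurableSet (T i k)) :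
    Measure.infinitePi P {ω | ∀ i, ¬ ∀ k, ω (g (i, k)) ∈ T i k} =
      ∏ i, (1 - ∏ k, P (g (i, k)) (T i k)) := by
  have h := Measure.map_infinitePi_infinitePi_of_inj (P := P) hg
  have h3 := Measure.infinitePi_map_curry (ι := ι) (κ := κ) (fun i k => P (g (i, k)))
  have hm : MeasurableSet (Set.pi Set.univ fun i => (Set.pi Set.univ (T i))ᶜ) :=
    MeasurableSet.univ_pi fun i => (MeasurableSet.univ_pi (hT i)).compl
  have h2 : Measure.infinitePi P {ω | ∀ i, ¬ ∀ k, ω (g (i, k)) ∈ T i k} =
      ((Measure.infinitePi P).map (fun ω i => ω (g i))).map (MeasurableEquiv.curry ι κ ℝ)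
        (Set.pi Set.univ fun i => (Set.pi Set.univ (T i))ᶜ) := by
    rw [Measure.map_map (by fun_prop) (by fun_prop), Measure.map_apply (by fun_prop) hm]
    congr 1
    ext ω; simp
  rw [h2, h, h3, Measure.infinitePi_eq_pi, Measure.pi_pi]
  apply Finset.prod_congr rfl
  intro i _
  rw [prob_compl_eq_one_sub (MeasurableSet.univ_pi (hT i)), Measure.infinitePi_eq_pi,
    Measure.pi_pi]

end General

end Pool.Agent.W823.SFP
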