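import Pool.Agent.W823.SFP.Good

set_option autoImplicit false

namespace Pool.Agent.W823.SFP

open MeasureTheory ProbabilityTheory

variable {d : ℕ} {α lam β : ℝ} {μW μL : Measure ℝ}

/-- The constant in front of the costs. -/
noncomputable def KK (d : ℕ) (α lam : ℝ) : ℝ := 2 * d / ((2 : ℝ) ^ (-(d : ℝ) - 2) * p0 d α lam)

theorem Hyp.KK_pos (h : Hyp d α lam β μW μL) : 0 < KK d α lam := by
  have := h.p0_pos
  have := h.dpos
  unfold KK; positivity

theorem sum_exp_lt_top : ∑' j : ℕ, ENNReal.ofReal (Real.exp (-(j : ℝ))) < ⊤ := by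
  have : ∀ j : ℕ, ENNReal.ofReal (Real.exp (-(j : ℝ))) = (ENNReal.ofReal (Real.exp (-1))) ^ j := by
    intro j
    rw [← ENNReal.ofReal_pow (Real.exp_pos _).le, ← Real.exp_nat_mul]
    congr 2; ring
  simp_rw [this]
  rw [ENNReal.tsum_geometric]
  apply ENNReal.inv_lt_top.2
  apply tsub_pos_of_lt
  rw [← ENNReal.ofReal_one]
  apply (ENNReal.ofReal_lt_ofReal_iff (by norm_num)).2
  rw [Real.exp_lt_one_iff]; norm_num

theorem exp_sl_le (u : Site d) : ENNReal.ofReal (Real.exp (-(2 * d * sl u))) ≤ ∏ i, gd 1 (u i) := by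
  unfold gd
  rw [← ENNReal.ofReal_prod_of_nonneg (fun i _ => by positivity)]
  apply ENNReal.ofReal_le_ofReal
  have h0 := nrm_nonneg u
  have : Real.exp (-(2 * d * sl u)) = ∏ _i : Fin d, (3 + nrm u) ^ (-(1 + 1) : ℝ) := by
    rw [Finset.prod_const, Finset.card_univ, Fintype.card_fin, ← Real.rpow_natCast,
      ← Real.rpow_mul (by positivity), Real.rpow_def_of_pos (by positivity)]
    congr 1
    unfold sl
    ring
  rw [this]
  apply Finset.prod_le_prod (fun i _ => by positivity)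
  intro i _
  apply Real.rpow_le_rpow_of_nonpos (by positivity) _ (by norm_num)
  exact max_le (by linarith) ((abs_le_nrm u i).trans (by linarith))

theorem sum_bad (h : Hyp d α lam β μW μL) :
    ∑' p : Site d × ℕ, law d μW μL {ω | ω ∈ Bad d α lam β (KK d α lam) p.1 p.2 ∧
      KK d α lam * (sl p.1 + p.2) ≤ (2 : ℝ) ^ (rho d α β * p.2)} ≠ ⊤ := by
  have hK := h.KK_pos
  have hp0 := h.p0_pos
  have hd := h.dpos
  have hle : ∀ p : Site d × ℕ, law d μW μL {ω | ω ∈ Bad d α lam β (KK d α lam) p.1 p.2 ∧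
      KK d α lam * (sl p.1 + p.2) ≤ (2 : ℝ) ^ (rho d α β * p.2)} ≤
      (∏ i, gd 1 (p.1 i)) * ENNReal.ofReal (Real.exp (-(p.2 : ℝ))) := by
    rintro ⟨u, j⟩
    by_cases hj : KK d α lam * (sl u + j) ≤ (2 : ℝ) ^ (rho d α β * j)
    · refine (measure_mono (t := Bad d α lam β (KK d α lam) u j) (fun ω hω => hω.1)).trans ?_
      refine (bad_prob h hK.le u j hj).trans ?_
      have e : (2 : ℝ) ^ (-(d : ℝ) - 2) * p0 d α lam * (KK d α lam * (sl u + j)) =
          2 * d * sl u + 2 * d * j := by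
        unfold KK
        field_simp
      rw [e, neg_add, Real.exp_add, ENNReal.ofReal_mul (Real.exp_pos _).le]
      apply mul_le_mul' (exp_sl_le u)
      apply ENNReal.ofReal_le_ofReal
      apply Real.exp_le_exp.2
      have : (0 : ℝ) ≤ j := Nat.cast_nonneg j
      nlinarith
    · have : {ω : Conf d | ω ∈ Bad d α lam β (KK d α lam) u j ∧
        KK d α lam * (sl u + j) ≤ (2 : ℝ) ^ (rho d α β * j)} = ∅ := by
        ext ω; simp [hj]
      simp only [this, measure_empty]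
      exact zero_le
  refine ne_top_of_le_ne_top ?_ (ENNReal.tsum_le_tsum hle)
  rw [ENNReal.tsum_prod']
  simp_rw [ENNReal.tsum_mul_left]
  rw [ENNReal.tsum_mul_right]
  apply ENNReal.mul_ne_top
  · exact ne_top_of_le_ne_top ENNReal.ofReal_ne_top (lattice_sum_bound d 1 one_pos le_rfl)
  · exact sum_exp_lt_top.ne

/-- Almost surely, from some class on, no site is bad. -/
theorem ae_good (h : Hyp d α lam β μW μL) : ∀ᵐ ω ∂(law d μW μL), ∃ J0 : ℕ, ∀ (u : Site d) (j : ℕ),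
    J0 ≤ j → KK d α lam * (sl u + j) ≤ (2 : ℝ) ^ (rho d α β * j) →
    ω ∉ Bad d α lam β (KK d α lam) u j := by
  filter_upwards [ae_finite_setOfPred_mem (sum_bad h)] with ω hω
  obtain ⟨N, hN⟩ := (hω.image Prod.snd).bddAbove
  refine ⟨N + 1, fun u j hj hK hb => ?_⟩
  have : j ≤ N := hN ⟨(u, j), ⟨hb, hK⟩, rfl⟩
  omega

/-- The growth constant of the logarithmic sizes. -/
noncomputable def C3 (d : ℕ) (α β : ℝ) : ℝ := Real.log (2 * d) + 2 / (α * β)

theorem Hyp.C3_nonneg (h : Hyp d α lam β μW μL) : 0 ≤ C3 d α β := by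
  unfold C3
  have := h.ab_pos
  have hd := h.dpos
  have : 0 ≤ Real.log (2 * d) := Real.log_nonneg (by linarith)
  positivity

theorem sl_step (h : Hyp d α lam β μW μL) {u y : Site d} {j : ℕ}
    (hy : nrm (y - u) ≤ d * (2 : ℝ) ^ (2 * (j : ℝ) / (α * β))) :
    sl y ≤ sl u + C3 d α β * (j + 1) := by
  have hd := h.dpos
  have hab := h.ab_pos
  have h1 := h.one_le_pow j
  have hlogd : 0 ≤ Real.log (2 * d) := Real.log_nonneg (by linarith)
  have h2 : nrm y ≤ nrm u + d * (2 : ℝ) ^ (2 * (j : ℝ) / (α * β)) := by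
    have := nrm_add_le u (y - u)
    rw [add_sub_cancel] at this
    linarith
  have hu := nrm_nonneg u
  have hny := nrm_nonneg y
  have h3 : 3 + nrm y ≤ (3 + nrm u) * (2 * d * (2 : ℝ) ^ (2 * (j : ℝ) / (α * β))) := by
    have h4 : 1 ≤ d * (2 : ℝ) ^ (2 * (j : ℝ) / (α * β)) := by nlinarith
    set t := (d : ℝ) * (2 : ℝ) ^ (2 * (j : ℝ) / (α * β)) with ht
    have : (3 + nrm u) * (2 * d * (2 : ℝ) ^ (2 * (j : ℝ) / (α * β))) = (3 + nrm u) * (2 * t) := by
      rw [ht]; ring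
    rw [this]
    nlinarith
  have h5 : sl y ≤ sl u + (Real.log (2 * d) + Real.log ((2 : ℝ) ^ (2 * (j : ℝ) / (α * β)))) := by
    unfold sl
    rw [← Real.log_mul (by positivity) (by positivity), ← Real.log_mul (by positivity) (by positivity)]
    exact Real.log_le_log (by positivity) h3
  refine h5.trans ?_
  rw [Real.log_rpow (by norm_num)]
  unfold C3
  have hl2 : Real.log 2 ≤ 1 := by
    have := Real.log_two_lt_d9; linarith
  have hj : (0 : ℝ) ≤ j := Nat.cast_nonneg j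
  have h6 : 2 * (j : ℝ) / (α * β) * Real.log 2 ≤ 2 / (α * β) * (j + 1) := by
    have h7 : 2 * (j : ℝ) / (α * β) = 2 / (α * β) * j := by ring
    rw [h7, mul_assoc]
    have : 0 ≤ 2 / (α * β) := by positivity
    apply mul_le_mul_of_nonneg_left _ this
    nlinarith
  nlinarith

/-- The sum of the chain. -/
noncomputable def Cr (d : ℕ) (α β : ℝ) : ℝ := ∑' i : ℕ, ((i : ℝ) + 1) ^ 2 * (2 : ℝ) ^ (-(rho d α β * i))

theorem Hyp.summable_Cr (h : Hyp d α lam β μW μL) :
    Summable fun i : ℕ => ((i : ℝ) + 1) ^ 2 * (2 : ℝ) ^ (-(rho d α β * i)) := by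
  have hr := h.rho_pos
  set r : ℝ := (2 : ℝ) ^ (-(rho d α β)) with hrdef
  have hr0 : 0 < r := by positivity
  have hr1 : r < 1 := Real.rpow_lt_one_of_one_lt_of_neg (by norm_num) (by linarith)
  have h1 : ∀ i : ℕ, (2 : ℝ) ^ (-(rho d α β * i)) = r ^ i := by
    intro i
    rw [hrdef, ← Real.rpow_natCast, ← Real.rpow_mul (by norm_num)]
    congr 1; ring
  have hn : ‖r‖ < 1 := by rw [Real.norm_of_nonneg hr0.le]; exact hr1
  have h2 := (summable_pow_mul_geometric_of_norm_lt_one 2 hn)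
  have h3 := (summable_pow_mul_geometric_of_norm_lt_one 1 hn)
  have h4 := (summable_pow_mul_geometric_of_norm_lt_one 0 hn)
  refine ((h2.add (h3.mul_left 2)).add h4).congr fun i => ?_
  rw [h1]
  ring

theorem Hyp.term_le_Cr (h : Hyp d α lam β μW μL) (i : ℕ) :
    ((i : ℝ) + 1) ^ 2 * (2 : ℝ) ^ (-(rho d α β * i)) ≤ Cr d α β :=
  h.summable_Cr.le_tsum i fun j _ => by positivity

theorem Hyp.Cr_pos (h : Hyp d α lam β μW μL) : 0 < Cr d α β := by
  have := h.term_le_Cr 0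
  simp at this
  linarith

noncomputable def C4 (d : ℕ) (α lam β : ℝ) : ℝ := KK d α lam * (1 + C3 d α β) * Cr d α β

theorem Hyp.C4_pos (h : Hyp d α lam β μW μL) : 0 < C4 d α lam β := by
  have := h.KK_pos
  have := h.C3_nonneg
  have := h.Cr_pos
  unfold C4; positivity

/-- The chain: from a site of large class there is a cheap exploding path. -/
theorem chain (h : Hyp d α lam β μW μL) {ω : Conf d} {J0 : ℕ}
    (hJ : ∀ (u : Site d) (j : ℕ), J0 ≤ j → KK d α lam * (sl u + j) ≤ (2 : ℝ) ^ (rho d α β * j) →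
      ω ∉ Bad d α lam β (KK d α lam) u j) (u : Site d) (j : ℕ) (hj : J0 ≤ j)
    (hu : th β j ≤ wt ω u) (hc : C4 d α lam β * (sl u + j + 1) ≤ (2 : ℝ) ^ (rho d α β * j)) :
    ∃ a, IsExploding α lam ω u a ∧
      len ω a ≤ ENNReal.ofReal (C4 d α lam β * (sl u + j + 1) * (2 : ℝ) ^ (-(rho d α β * j))) := by
  classical
  have hstep : ∀ (u' : Site d) (j' : ℕ), ∃ y : Site d, J0 ≤ j' →
      KK d α lam * (sl u' + j') ≤ (2 : ℝ) ^ (rho d α β * j') →
      ((∀ i, u' i < y i) ∧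
      nrm (y - u') ≤ d * (2 : ℝ) ^ (2 * (j' : ℝ) / (α * β)) ∧ th β (j' + 1) ≤ wt ω y ∧
      cost ω u' y ≤ kap d α β (KK d α lam) u' j' ∧ (th β j' ≤ wt ω u' → Joined α lam ω u' y)) := by
    intro u' j'
    by_cases hh : J0 ≤ j' ∧ KK d α lam * (sl u' + j') ≤ (2 : ℝ) ^ (rho d α β * j')
    · obtain ⟨y, hy⟩ := not_bad h (hJ u' j' hh.1 hh.2)
      exact ⟨y, fun _ _ => hy⟩
    · exact ⟨u', fun a b => absurd ⟨a, b⟩ hh⟩
  choose nx hnx using hstep
  let a : ℕ → Site d := fun n => Nat.rec u (fun i y => nx y (j + i)) n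
  have ha0 : a 0 = u := rfl
  have has : ∀ i, a (i + 1) = nx (a i) (j + i) := fun i => rfl
  have hKK := h.KK_pos
  have hC3 := h.C3_nonneg
  have hCr := h.Cr_pos
  have hsl := sl_pos u
  have hj0 : (0 : ℝ) ≤ j := Nat.cast_nonneg j
  -- arithmetic
  have harith : ∀ i : ℕ, (sl u + C3 d α β * (j + 1) * (i : ℝ) ^ 2) + ((j + i : ℕ) : ℝ) ≤
      (1 + C3 d α β) * (sl u + j + 1) * ((i : ℝ) + 1) ^ 2 := by
    intro i
    have hi : (0 : ℝ) ≤ i := Nat.cast_nonneg i
    push_cast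
    have e1 : sl u + (j + i) ≤ (sl u + j + 1) * ((i : ℝ) + 1) ^ 2 := by
      have : ((i : ℝ) + 1) ^ 2 ≥ i + 1 := by nlinarith
      nlinarith
    have e2 : C3 d α β * (j + 1) * (i : ℝ) ^ 2 ≤ C3 d α β * ((sl u + j + 1) * ((i : ℝ) + 1) ^ 2) := by
      rw [mul_assoc]
      apply mul_le_mul_of_nonneg_left _ hC3
      apply mul_le_mul (by linarith) (by nlinarith) (by positivity) (by positivity)
    linarith
  have hcond : ∀ i : ℕ, sl (a i) ≤ sl u + C3 d α β * (j + 1) * (i : ℝ) ^ 2 →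
      KK d α lam * (sl (a i) + ((j + i : ℕ) : ℝ)) ≤
        C4 d α lam β * (sl u + j + 1) * (((i : ℝ) + 1) ^ 2 / Cr d α β) ∧
      KK d α lam * (sl (a i) + ((j + i : ℕ) : ℝ)) ≤ (2 : ℝ) ^ (rho d α β * ((j + i : ℕ) : ℝ)) := by
    intro i hi
    have e1 : KK d α lam * (sl (a i) + ((j + i : ℕ) : ℝ)) ≤
        C4 d α lam β * (sl u + j + 1) * (((i : ℝ) + 1) ^ 2 / Cr d α β) := by
      have := harith i
      calc KK d α lam * (sl (a i) + ((j + i : ℕ) : ℝ))
          ≤ KK d α lam * ((1 + C3 d α β) * (sl u + j + 1) * ((i : ℝ) + 1) ^ 2) := by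
            apply mul_le_mul_of_nonneg_left _ hKK.le; linarith
        _ = _ := by unfold C4; field_simp
    refine ⟨e1, e1.trans ?_⟩
    have e2 := h.term_le_Cr i
    have e3 : ((i : ℝ) + 1) ^ 2 / Cr d α β ≤ (2 : ℝ) ^ (rho d α β * i) := by
      rw [div_le_iff₀ hCr]
      rw [Real.rpow_neg (by norm_num)] at e2
      have h2 : (0 : ℝ) < (2 : ℝ) ^ (rho d α β * i) := by positivity
      calc ((i : ℝ) + 1) ^ 2 = (((i : ℝ) + 1) ^ 2 * ((2 : ℝ) ^ (rho d α β * i))⁻¹) * (2 : ℝ) ^ (rho d α β * i) := by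
            field_simp
        _ ≤ Cr d α β * (2 : ℝ) ^ (rho d α β * i) := by gcongr
        _ = _ := by ring
    have hC4 := h.C4_pos
    calc C4 d α lam β * (sl u + j + 1) * (((i : ℝ) + 1) ^ 2 / Cr d α β)
        ≤ (2 : ℝ) ^ (rho d α β * j) * (2 : ℝ) ^ (rho d α β * i) := by
          apply mul_le_mul hc e3 (by positivity) (by positivity)
      _ = _ := by
          rw [← Real.rpow_add (by norm_num)]
          congr 1; push_cast; ring
  have hind : ∀ i : ℕ, th β (j + i) ≤ wt ω (a i) ∧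
      sl (a i) ≤ sl u + C3 d α β * (j + 1) * (i : ℝ) ^ 2 := by
    intro i
    induction i with
    | zero => simp only [add_zero, ha0, Nat.cast_zero]; exact ⟨hu, by simp⟩
    | succ i ih =>
      have hp := hnx (a i) (j + i) (by omega) (hcond i ih.2).2
      rw [← has] at hp
      refine ⟨hp.2.2.1, (sl_step h hp.2.1).trans ?_⟩
      have hi : (0 : ℝ) ≤ i := Nat.cast_nonneg i
      have e := ih.2
      push_cast
      have e2 : C3 d α β * (j + i + 1) ≤ C3 d α β * (j + 1) * (i + 1) := by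
        rw [mul_assoc]
        apply mul_le_mul_of_nonneg_left _ hC3
        nlinarith
      have e3 : C3 d α β * (j + 1) * (i : ℝ) ^ 2 + C3 d α β * (j + 1) * (i + 1) ≤
          C3 d α β * (j + 1) * ((i : ℝ) + 1) ^ 2 := by
        have : 0 ≤ C3 d α β * (j + 1) := by positivity
        nlinarith
      linarith
  have hprop : ∀ i : ℕ, (∀ k, a i k < a (i + 1) k) ∧
      cost ω (a i) (a (i + 1)) ≤ kap d α β (KK d α lam) (a i) (j + i) ∧
      Joined α lam ω (a i) (a (i + 1)) := by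
    intro i
    have hp := hnx (a i) (j + i) (by omega) (hcond i (hind i).2).2
    rw [← has] at hp
    exact ⟨hp.1, hp.2.2.2.1, hp.2.2.2.2 (hind i).1⟩
  have hd := h.hd
  have hmono : StrictMono fun i => a i ⟨0, hd⟩ := strictMono_nat_of_lt_succ fun i => (hprop i).1 _
  have hpath : IsPath α lam ω u a :=
    ⟨ha0, fun m n hmn => hmono.injective (congrFun hmn _), fun i => (hprop i).2.2⟩
  have hlen : len ω a ≤ ENNReal.ofReal (C4 d α lam β * (sl u + j + 1) * (2 : ℝ) ^ (-(rho d α β * j))) := by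
    have hterm : ∀ i : ℕ, ENNReal.ofReal (cost ω (a i) (a (i + 1))) ≤
        ENNReal.ofReal ((C4 d α lam β * (sl u + j + 1) * (2 : ℝ) ^ (-(rho d α β * j)) / Cr d α β) *
          (((i : ℝ) + 1) ^ 2 * (2 : ℝ) ^ (-(rho d α β * i)))) := by
      intro i
      apply ENNReal.ofReal_le_ofReal
      refine (hprop i).2.1.trans ?_
      unfold kap
      have e1 := (hcond i (hind i).2).1
      calc KK d α lam * (sl (a i) + ((j + i : ℕ) : ℝ)) * (2 : ℝ) ^ (-(rho d α β * ((j + i : ℕ) : ℝ)))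
          ≤ (C4 d α lam β * (sl u + j + 1) * (((i : ℝ) + 1) ^ 2 / Cr d α β)) *
            (2 : ℝ) ^ (-(rho d α β * ((j + i : ℕ) : ℝ))) := by
            apply mul_le_mul_of_nonneg_right e1 (by positivity)
        _ = _ := by
            have : (2 : ℝ) ^ (-(rho d α β * ((j + i : ℕ) : ℝ))) =
                (2 : ℝ) ^ (-(rho d α β * j)) * (2 : ℝ) ^ (-(rho d α β * i)) := by
              rw [← Real.rpow_add (by norm_num)]
              congr 1; push_cast; ring
            rw [this]; ring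
    have hC4 := h.C4_pos
    unfold len
    refine (ENNReal.tsum_le_tsum hterm).trans ?_
    have hsum := h.summable_Cr
    rw [← ENNReal.ofReal_tsum_of_nonneg (fun i => by positivity) (hsum.mul_left _)]
    apply ENNReal.ofReal_le_ofReal
    rw [tsum_mul_left]
    change _ * Cr d α β ≤ _
    rw [div_mul_cancel₀ _ hCr.ne']
  exact ⟨a, ⟨hpath, lt_of_le_of_lt hlen ENNReal.ofReal_lt_top⟩, hlen⟩

end Pool.Agent.W823.SFP
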