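import Mathlib

/-!
# Scale-free percolation on `ℤ^d`: the model

Definitions used in the statement about shortest exploding paths.
-/

set_option autoImplicit false

namespace Pool.Agent.W823.SFP

open MeasureTheory ProbabilityTheory

/-- The vertices: the points of `ℤ^d`. -/
abbrev Site (d : ℕ) : Type := Fin d → ℤ

/-- The Euclidean norm of a point of `ℤ^d`. -/
noncomputable def nrm {d : ℕ} (x : Site d) : ℝ := Real.sqrt (∑ i, (x i : ℝ) ^ 2)

/-- The index set of the independent random variables: one index for every vertex (its
vertex-weight) and two indices for every unordered pair of vertices (the mark which decides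
whether the pair is joined, and the edge-weight). -/
abbrev Idx (d : ℕ) : Type := Site d ⊕ (Sym2 (Site d) ⊕ Sym2 (Site d))

/-- A configuration: the values of all the random variables. -/
abbrev Conf (d : ℕ) : Type := Idx d → ℝ

/-- The vertex-weight `W_x`. -/
def wt {d : ℕ} (ω : Conf d) (x : Site d) : ℝ := ω (Sum.inl x)

/-- The mark of the pair `{x, y}`. -/
def mark {d : ℕ} (ω : Conf d) (x y : Site d) : ℝ := ω (Sum.inr (Sum.inl s(x, y)))

/-- The edge-weight `L_{xy}` of the pair `{x, y}`. -/
def cost {d : ℕ} (ω : Conf d) (x y : Site d) : ℝ := ω (Sum.inr (Sum.inr s(x, y)))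

/-- The law of each of the random variables: `μW` for the vertex-weights, the uniform law on
`[0,1]` for the marks, `μL` for the edge-weights. -/
noncomputable def marg {d : ℕ} (μW μL : Measure ℝ) : Idx d → Measure ℝ :=
  Sum.elim (fun _ => μW)
    (Sum.elim (fun _ => (volume : Measure ℝ).restrict (Set.Icc 0 1)) (fun _ => μL))

/-- The joint law: all the random variables are independent. -/
noncomputable def law (d : ℕ) (μW μL : Measure ℝ) : Measure (Conf d) :=
  Measure.infinitePi (marg (d := d) μW μL)

/-- Two vertices `x`, `y` are joined: either `‖x - y‖ = 1`, or `‖x - y‖ > 1` and the uniform mark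
of the pair is smaller than `1 - exp (- λ W_x W_y / ‖x - y‖ ^ α)`. Given the vertex-weights, the
pairs at distance larger than one are joined independently with these probabilities. -/
def Joined {d : ℕ} (α lam : ℝ) (ω : Conf d) (x y : Site d) : Prop :=
  nrm (x - y) = 1 ∨
    (1 < nrm (x - y) ∧ mark ω x y < 1 - Real.exp (-(lam * wt ω x * wt ω y / nrm (x - y) ^ α)))

/-- `v` is an infinite path `(x, v 1, v 2, …)` of the graph: its vertices are distinct and
consecutive ones are joined. -/
def IsPath {d : ℕ} (α lam : ℝ) (ω : Conf d) (x : Site d) (v : ℕ → Site d) : Prop :=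
  v 0 = x ∧ Function.Injective v ∧ ∀ n, Joined α lam ω (v n) (v (n + 1))

/-- The `L`-length of the infinite path `v`, the sum of the weights of its edges. -/
noncomputable def len {d : ℕ} (ω : Conf d) (v : ℕ → Site d) : ENNReal :=
  ∑' n, ENNReal.ofReal (cost ω (v n) (v (n + 1)))

/-- `v` is an exploding path from `x`: an infinite path with finite `L`-length. -/
def IsExploding {d : ℕ} (α lam : ℝ) (ω : Conf d) (x : Site d) (v : ℕ → Site d) : Prop :=
  IsPath α lam ω x v ∧ len ω v < ⊤

/-- `v` is a shortest exploding path from `x`: it minimises the `L`-length among all exploding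
paths from `x`. -/
def IsShortest {d : ℕ} (α lam : ℝ) (ω : Conf d) (x : Site d) (v : ℕ → Site d) : Prop :=
  IsExploding α lam ω x v ∧ ∀ w, IsExploding α lam ω x w → len ω v ≤ len ω w

/-- The generalised inverse `F^{(-1)}(u) = inf {t : μ (-∞, t] ≥ u}` of the distribution function
of `μ`. -/
noncomputable def quantile (μ : Measure ℝ) (u : ℝ) : ℝ :=
  sInf {t : ℝ | u ≤ (μ (Set.Iic t)).toReal}

end Pool.Agent.W823.SFP
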