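import Pool.Agent.W823.SFP.Main

set_option autoImplicit false

namespace Pool.Agent.W823.SFP

open MeasureTheory ProbabilityTheory Filter

variable {d : ℕ} {α lam β : ℝ} {μW μL : Measure ℝ}

theorem summable_aux (C1 C2 C3 c : ℝ) (hc : 0 < c) :
    Summable fun m : ℕ => Real.exp (C1 * (m : ℝ) ^ 2 + C2 * m + C3 - c * 2 ^ m) := by
  have h1 := tendsto_pow_const_div_const_pow_of_one_lt 2 (one_lt_two : (1 : ℝ) < 2)
  have h2 := tendsto_pow_const_div_const_pow_of_one_lt 1 (one_lt_two : (1 : ℝ) < 2)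
  have h3 := tendsto_pow_const_div_const_pow_of_one_lt 0 (one_lt_two : (1 : ℝ) < 2)
  have h4 := ((h1.const_mul C1).add (h2.const_mul (C2 + 1))).add (h3.const_mul C3)
  simp only [mul_zero, add_zero] at h4
  have h5 : ∀ᶠ m : ℕ in atTop, C1 * (m : ℝ) ^ 2 + C2 * m + C3 - c * 2 ^ m ≤ -(m : ℝ) := by
    filter_upwards [h4.eventually_le_const hc] with m hm
    have hp : (0 : ℝ) < 2 ^ m := by positivity
    have : C1 * ((m : ℝ) ^ 2 / 2 ^ m) + (C2 + 1) * ((m : ℝ) ^ 1 / 2 ^ m) + C3 * ((m : ℝ) ^ 0 / 2 ^ m) =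
        (C1 * (m : ℝ) ^ 2 + (C2 + 1) * m + C3) / 2 ^ m := by field_simp
    rw [this, div_le_iff₀ hp] at hm
    linarith
  have h6 : Summable fun m : ℕ => Real.exp (-(m : ℝ)) := by
    have := Real.summable_exp_neg_nat
    exact this
  refine summable_of_isBigO_nat h6 ?_
  apply Asymptotics.IsBigO.of_bound 1
  filter_upwards [h5] with m hm
  rw [Real.norm_of_nonneg (Real.exp_pos _).le, Real.norm_of_nonneg (Real.exp_pos _).le, one_mul]
  exact Real.exp_le_exp.2 hm

theorem three_add_exp_le {s : ℝ} (hs : 0 ≤ s) : 3 + Real.exp s ≤ Real.exp (s + 2) := by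
  rw [Real.exp_add]
  have h2 : (4 : ℝ) ≤ Real.exp 2 := by
    have := Real.add_one_le_exp (1 : ℝ)
    have h3 : Real.exp 2 = Real.exp 1 * Real.exp 1 := by rw [← Real.exp_add]; norm_num
    rw [h3]; nlinarith
  have h4 : 1 ≤ Real.exp s := Real.one_le_exp hs
  nlinarith

theorem Gam_le (h : Hyp d α lam β μW μL) {s : ℝ} (hs : 1 ≤ s) {n : ℕ} (hn : 0 < n) :
    Gam α β (theta0 d α β) (Real.exp s / n) (Jf d α β s) ≤
      Real.exp (theta0 d α β * ((1 + 2 * dm d α β) / β + α * n - (α - d / β) / 2 * s)) := by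
  have hα := h.apos
  have hβ := h.hβ
  have hd := h.dpos
  have hdm := h.dm_pos
  have hρ1 := h.rho_lt
  have hdα : (d : ℝ) / α < 1 := (div_lt_one hα).2 h.hα
  have hθ0 : 0 ≤ theta0 d α β := by
    unfold theta0
    apply le_min
    · have : 0 < 1 - rho d α β := by linarith
      positivity
    · linarith
  have hn' : (0 : ℝ) < n := by exact_mod_cast hn
  unfold Gam
  have hth := th_pos β (Jf d α β s + 1)
  have h1 : th β (Jf d α β s + 1) ≤ Real.exp (1 / β + (s + 2) * (dm d α β / β)) := by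
    unfold th
    push_cast
    rw [add_div, Real.rpow_add (by norm_num), Real.exp_add, mul_comm]
    apply mul_le_mul _ _ (by positivity) (Real.exp_pos _).le
    · rw [Real.rpow_def_of_pos (by norm_num)]
      apply Real.exp_le_exp.2
      have hl2 : Real.log 2 ≤ 1 := by have := Real.log_two_lt_d9; linarith
      have : 0 ≤ 1 / β := by positivity
      nlinarith
    · have hlb : 0 ≤ Real.logb 2 (3 + Real.exp s) :=
        Real.logb_nonneg (by norm_num) (by linarith [Real.exp_pos s])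
      have hJ : (Jf d α β s : ℝ) ≤ dm d α β * Real.logb 2 (3 + Real.exp s) :=
        Nat.floor_le (by positivity)
      calc (2 : ℝ) ^ ((Jf d α β s : ℝ) / β) ≤ (2 : ℝ) ^ (Real.logb 2 (3 + Real.exp s) * (dm d α β / β)) := by
            apply Real.rpow_le_rpow_of_exponent_le (by norm_num)
            rw [mul_div_assoc', mul_comm (Real.logb _ _)]
            gcongr
        _ = (3 + Real.exp s) ^ (dm d α β / β) := by
            rw [Real.rpow_mul (by norm_num), Real.rpow_logb (by norm_num) (by norm_num) (by positivity)]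
        _ ≤ (Real.exp (s + 2)) ^ (dm d α β / β) :=
            Real.rpow_le_rpow (by positivity) (three_add_exp_le (by linarith)) (by positivity)
        _ = _ := by rw [← Real.exp_mul]
  have h2 : Real.exp (α * s - α * n) ≤ (Real.exp s / n) ^ α := by
    rw [Real.div_rpow (Real.exp_pos _).le hn'.le, ← Real.exp_mul, Real.exp_sub, mul_comm s α]
    apply div_le_div_of_nonneg_left (Real.exp_pos _).le (by positivity)
    calc (n : ℝ) ^ α ≤ (Real.exp n) ^ α := by
          apply Real.rpow_le_rpow hn'.le _ hα.le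
          linarith [Real.add_one_le_exp (n : ℝ)]
      _ = Real.exp (α * n) := by rw [← Real.exp_mul, mul_comm]
  have h3 : th β (Jf d α β s + 1) / (Real.exp s / n) ^ α ≤
      Real.exp ((1 + 2 * dm d α β) / β + α * n - (α - d / β) / 2 * s) := by
    have h20 := Real.exp_pos (α * s - α * n)
    calc th β (Jf d α β s + 1) / (Real.exp s / n) ^ α
        ≤ Real.exp (1 / β + (s + 2) * (dm d α β / β)) / Real.exp (α * s - α * n) := by gcongr
      _ = Real.exp ((1 / β + (s + 2) * (dm d α β / β)) - (α * s - α * n)) := by rw [← Real.exp_sub]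
      _ = _ := by
          congr 1
          unfold dm
          field_simp
          ring
  calc _ ≤ (Real.exp ((1 + 2 * dm d α β) / β + α * n - (α - d / β) / 2 * s)) ^ theta0 d α β :=
        Real.rpow_le_rpow (by positivity) h3 hθ0
    _ = _ := by rw [← Real.exp_mul, mul_comm]

/-- Almost surely, for large `m` no cheap path with at most `A m` steps has a long step at scale
`exp (2 ^ m)`. -/
theorem ae_not_EvU (h : Hyp d α lam β μW μL) (A : ℕ) (hA : 0 < A) :
    ∀ᵐ ω ∂(law d μW μL), ∀ᶠ m : ℕ in atTop,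
      ω ∉ EvU d α lam β (etaf d α ((2 : ℝ) ^ m)) (theta0 d α β) (rho d α β) ((2 : ℝ) ^ m)
        (Real.exp ((2 : ℝ) ^ m) / (A * m : ℕ)) (Jf d α β ((2 : ℝ) ^ m)) (A * m) := by
  have hα := h.apos
  have hβ := h.hβ
  have hd := h.dpos
  have hdm := h.dm_pos
  have hρ := h.rho_pos
  have hρ1 := h.rho_lt
  have hdα : (d : ℝ) / α < 1 := (div_lt_one hα).2 h.hα
  have hCL1 : 1 ≤ max 1 lam := le_max_left _ _
  have hθ0 : 0 ≤ theta0 d α β := by
    unfold theta0
    apply le_min
    · have : 0 < 1 - rho d α β := by linarith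
      positivity
    · linarith
  have hθpos : 0 < theta0 d α β := by
    unfold theta0
    apply lt_min
    · have : 0 < 1 - rho d α β := by linarith
      positivity
    · linarith
  set δ : ℝ := (1 - rho d α β) / 4 with hδ
  have hδ0 : 0 < δ := by rw [hδ]; linarith
  set CJ : ℝ := dm d α β * (9 / 2) with hCJ
  have hCJ0 : 0 < CJ := by positivity
  set B : ℝ := 10 ^ d * ((CJ + 1) * (max 1 lam * (2 : ℝ) ^ (4 + 2 * CJ))) with hB
  have hB1 : 1 ≤ B := by
    rw [hB]
    exact one_le_mul_of_one_le_of_one_le (one_le_pow₀ (by norm_num))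
      (one_le_mul_of_one_le_of_one_le (by linarith)
        (one_le_mul_of_one_le_of_one_le hCL1 (Real.one_le_rpow (by norm_num) (by positivity))))
  have hc1 : 0 < (α - d / β) / 2 := by
    have : d / β < α := by rw [div_lt_iff₀ hβ]; exact h.hγ1
    linarith
  -- from some `m` on the exponents are fine
  obtain ⟨m0, hm0⟩ : ∃ m0 : ℕ, 1 ≤ m0 ∧ ∀ m, m0 ≤ m → 1 / (2 : ℝ) ^ m ≤ δ / 2 := by
    have ht : Tendsto (fun m : ℕ => 1 / (2 : ℝ) ^ m) atTop (nhds 0) := by
      have := tendsto_pow_atTop_nhds_zero_of_lt_one (r := (1 / 2 : ℝ)) (by norm_num) (by norm_num)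
      refine this.congr fun m => ?_
      rw [one_div_pow]
    obtain ⟨m1, hm1⟩ := eventually_atTop.1 (ht.eventually_le_const (show (0 : ℝ) < δ / 2 by positivity))
    exact ⟨max 1 m1, le_max_left _ _, fun m hm => hm1 m ((le_max_right _ _).trans hm)⟩
  obtain ⟨hm01, hm0⟩ := hm0
  set C1 : ℝ := A * (d + 3) with hC1
  set C2 : ℝ := A * (1 + Real.log B + theta0 d α β * α) with hC2
  set C3' : ℝ := theta0 d α β * ((1 + 2 * dm d α β) / β) with hC3'
  set c : ℝ := theta0 d α β * ((α - d / β) / 2) with hc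
  have hc0 : 0 < c := by positivity
  have hbound : ∀ m : ℕ, m0 ≤ m → law d μW μL
      (EvU d α lam β (etaf d α ((2 : ℝ) ^ m)) (theta0 d α β) (rho d α β) ((2 : ℝ) ^ m)
        (Real.exp ((2 : ℝ) ^ m) / (A * m : ℕ)) (Jf d α β ((2 : ℝ) ^ m)) (A * m)) ≤
      ENNReal.ofReal (Real.exp (C1 * (m : ℝ) ^ 2 + C2 * m + C3' - c * 2 ^ m)) * Wc δ := by
    intro m hm
    set s : ℝ := (2 : ℝ) ^ m with hs
    have hs1 : 1 ≤ s := one_le_pow₀ (by norm_num)
    have hs0 : 0 < s := by linarith
    have hmpos : 0 < m := by omega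
    set n : ℕ := A * m with hn
    have hnpos : 0 < n := Nat.mul_pos hA hmpos
    have hn' : (0 : ℝ) < n := by exact_mod_cast hnpos
    have hS : 0 < Real.exp s / n := by positivity
    have ha0 : 0 < 1 / s := by positivity
    have ha1 : 1 / s ≤ 1 := by rw [div_le_one hs0]; exact hs1
    have hη0 : 0 ≤ etaf d α s := by unfold etaf; positivity
    have hηa : α * etaf d α s = d * (1 + 1 / s) := by unfold etaf; field_simp
    have hq : (etaf d α s + theta0 d α β) / β ≤ 1 - δ := by
      rw [div_le_iff₀ hβ]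
      have h1 : theta0 d α β ≤ β * ((1 - rho d α β) / 2) / 4 := min_le_left _ _
      have h2 : etaf d α s = β * ((1 + rho d α β) / 2) * (1 + 1 / s) := by
        have hab := h.ab_pos
        unfold etaf rho; field_simp; ring
      have h3 : 1 / s ≤ δ / 2 := hm0 m hm
      have h4 : β * ((1 + rho d α β) / 2) * (1 + 1 / s) ≤ β * ((1 + rho d α β) / 2) + β * (δ / 2) := by
        rw [mul_add, mul_one]
        have : β * ((1 + rho d α β) / 2) * (1 / s) ≤ β * (δ / 2) := by
          rw [mul_assoc]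
          apply mul_le_mul_of_nonneg_left _ hβ.le
          calc (1 + rho d α β) / 2 * (1 / s) ≤ 1 * (1 / s) := by
                apply mul_le_mul_of_nonneg_right _ ha0.le; linarith
            _ ≤ δ / 2 := by linarith
        linarith
      rw [h2]
      rw [hδ] at h4 ⊢
      nlinarith
    refine (EvU_prob h hη0 hθ0 hS ha0 ha1 hηa hδ0 hq hs1).trans ?_
    rw [← mul_assoc, ← mul_assoc]
    apply mul_le_mul' _ le_rfl
    set J := Jf d α β s with hJ
    have hJs : (J : ℝ) ≤ CJ * s := Jf_le h hs1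
    set M : ℝ := (10 / (1 / s)) ^ d * ((J + 1) * (max 1 lam * s ^ 2 * (2 : ℝ) ^ (4 + 2 * (1 / s) * J))) with hM
    have hM0 : 0 < M := by positivity
    have hMle : M ≤ B * s ^ (d + 3) := by
      rw [hM, hB]
      have e1 : (10 / (1 / s)) ^ d = 10 ^ d * s ^ d := by rw [← mul_pow]; congr 1; field_simp
      have e2 : (J : ℝ) + 1 ≤ (CJ + 1) * s := by linarith
      have e3 : (2 : ℝ) ^ (4 + 2 * (1 / s) * J) ≤ (2 : ℝ) ^ (4 + 2 * CJ) := by
        apply Real.rpow_le_rpow_of_exponent_le (by norm_num)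
        have : 2 * (1 / s) * J ≤ 2 * CJ := by
          rw [mul_one_div, div_mul_eq_mul_div, div_le_iff₀ hs0]; linarith
        linarith
      rw [e1]
      calc 10 ^ d * s ^ d * (((J : ℝ) + 1) * (max 1 lam * s ^ 2 * (2 : ℝ) ^ (4 + 2 * (1 / s) * J)))
          ≤ 10 ^ d * s ^ d * (((CJ + 1) * s) * (max 1 lam * s ^ 2 * (2 : ℝ) ^ (4 + 2 * CJ))) := by
            gcongr
        _ = _ := by ring
    have hMexp : M ≤ Real.exp (Real.log B + (d + 3) * m) := by
      refine hMle.trans ?_
      rw [Real.exp_add, Real.exp_log (by linarith)]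
      apply mul_le_mul_of_nonneg_left _ (by linarith)
      rw [hs, ← pow_mul]
      have h1 : (2 : ℝ) ≤ Real.exp 1 := by linarith [Real.add_one_le_exp (1 : ℝ)]
      calc (2 : ℝ) ^ (m * (d + 3)) ≤ (Real.exp 1) ^ (m * (d + 3)) := by gcongr
        _ = _ := by rw [← Real.exp_nat_mul]; congr 1; push_cast; ring
    have hMn : M ^ n ≤ Real.exp (n * (Real.log B + (d + 3) * m)) := by
      rw [Real.exp_nat_mul]
      gcongr
    have hG := Gam_le h hs1 hnpos
    have hG0 : 0 ≤ Gam α β (theta0 d α β) (Real.exp s / n) J := by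
      unfold Gam
      have := th_pos β (J + 1)
      positivity
    have hnexp : (n : ℝ) ≤ Real.exp n := by linarith [Real.add_one_le_exp (n : ℝ)]
    rw [← ENNReal.ofReal_natCast, ← ENNReal.ofReal_mul (by positivity), ← ENNReal.ofReal_mul (by positivity)]
    apply ENNReal.ofReal_le_ofReal
    calc (n : ℝ) * M ^ n * Gam α β (theta0 d α β) (Real.exp s / n) J
        ≤ Real.exp n * Real.exp (n * (Real.log B + (d + 3) * m)) *
          Real.exp (theta0 d α β * ((1 + 2 * dm d α β) / β + α * n - (α - d / β) / 2 * s)) := by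
          gcongr
      _ = _ := by
          rw [← Real.exp_add, ← Real.exp_add]
          congr 1
          rw [hC1, hC2, hC3', hc, hn, hs]
          push_cast
          ring
  have hsum : ∑' m : ℕ, law d μW μL
      (EvU d α lam β (etaf d α ((2 : ℝ) ^ (m + m0))) (theta0 d α β) (rho d α β) ((2 : ℝ) ^ (m + m0))
        (Real.exp ((2 : ℝ) ^ (m + m0)) / (A * (m + m0) : ℕ)) (Jf d α β ((2 : ℝ) ^ (m + m0)))
        (A * (m + m0))) ≠ ⊤ := by
    have hs := summable_aux C1 C2 C3' c hc0
    have hs' := (summable_nat_add_iff m0).2 hs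
    refine ne_top_of_le_ne_top ?_ (ENNReal.tsum_le_tsum fun m => hbound (m + m0) (by omega))
    rw [ENNReal.tsum_mul_right]
    exact ENNReal.mul_ne_top hs'.tsum_ofReal_ne_top (Wc_lt_top hδ0).ne
  filter_upwards [ae_eventually_notMem hsum] with ω hω
  rw [eventually_atTop] at hω ⊢
  obtain ⟨N, hN⟩ := hω
  refine ⟨N + m0, fun m hm => ?_⟩
  have := hN (m - m0) (by omega)
  rw [Nat.sub_add_cancel (by omega : m0 ≤ m)] at this
  exact this

/-- The main theorem for general laws. -/
theorem main (h : Hyp d α lam β μW μL) : ∀ᵐ ω ∂(law d μW μL),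
    (∃ v, IsShortest α lam ω 0 v) ∧
    ∀ v, IsShortest α lam ω 0 v → ∀ b : ℝ, 1 < b → ∀ᶠ n : ℕ in atTop, nrm (v n) < Real.exp (b ^ n) := by
  have hEv : ∀ᵐ ω ∂(law d μW μL), ∀ A : ℕ, 0 < A → ∀ᶠ m : ℕ in atTop,
      ω ∉ EvU d α lam β (etaf d α ((2 : ℝ) ^ m)) (theta0 d α β) (rho d α β) ((2 : ℝ) ^ m)
        (Real.exp ((2 : ℝ) ^ m) / (A * m : ℕ)) (Jf d α β ((2 : ℝ) ^ m)) (A * m) := by
    rw [ae_all_iff]
    intro A
    by_cases hA : 0 < A
    · filter_upwards [ae_not_EvU h A hA] with ω hω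
      exact fun _ => hω
    · exact Eventually.of_forall fun ω hA' => absurd hA' hA
  filter_upwards [hEv, ae_good h, ae_one_le h, ae_mass h, ae_locfin h] with ω h1 h2 h3 h4 h5
  obtain ⟨J0, hJ⟩ := h2
  refine ⟨exists_shortest h5 0 (exists_exploding h hJ 0), fun v hv b hb => ?_⟩
  obtain ⟨s0, hs01, hlink⟩ := link h hJ h3 h4 hv
  -- choose `A` with `4 < b ^ A`
  obtain ⟨A, hA⟩ := pow_unbounded_of_one_lt 4 hb
  have hA0 : 0 < A := by
    rcases Nat.eq_zero_or_pos A with h0 | h0
    · rw [h0] at hA; norm_num at hA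
    · exact h0
  have ht : Tendsto (fun m : ℕ => (2 : ℝ) ^ m) atTop atTop :=
    tendsto_pow_atTop_atTop_of_one_lt (by norm_num)
  obtain ⟨m1, hm1⟩ := eventually_atTop.1 ((h1 A hA0).and (ht.eventually_ge_atTop s0))
  rw [eventually_atTop]
  refine ⟨A * (m1 + 2), fun n hn => ?_⟩
  set q := n / A with hq
  have hqm : m1 + 2 ≤ q := by rw [hq, Nat.le_div_iff_mul_le hA0]; linarith
  have hnq : n ≤ A * (q + 1) := by
    have e1 := Nat.div_add_mod n A
    have e2 := Nat.mod_lt n hA0
    rw [← hq] at e1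
    rw [mul_add, mul_one]
    omega
  have hqn : A * q ≤ n := Nat.mul_div_le n A
  obtain ⟨ha, hb'⟩ := hm1 (q + 1) (by omega)
  have hle : nrm (v n) ≤ Real.exp ((2 : ℝ) ^ (q + 1)) := by
    by_contra hcon
    exact ha (hlink _ hb' (A * (q + 1)) ⟨n, hnq, not_le.1 hcon⟩)
  refine lt_of_le_of_lt hle (Real.exp_lt_exp.2 ?_)
  calc (2 : ℝ) ^ (q + 1) < 4 ^ q := by
        have e1 : (4 : ℝ) ^ q = 2 ^ q * 2 ^ q := by rw [← mul_pow]; norm_num
        rw [e1, pow_succ]
        have e2 : (0 : ℝ) < 2 ^ q := by positivity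
        apply mul_lt_mul_of_pos_left _ e2
        calc (2 : ℝ) = 2 ^ 1 := by norm_num
          _ < 2 ^ q := pow_lt_pow_right₀ (by norm_num) (by omega)
    _ ≤ (b ^ A) ^ q := by gcongr
    _ = b ^ (A * q) := by rw [pow_mul]
    _ ≤ b ^ n := pow_le_pow_right₀ hb.le hqn

end Pool.Agent.W823.SFP
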