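import Pool.Agent.W823.SFP.Final

set_option autoImplicit false

namespace Pool.Agent.W823.SFP

open MeasureTheory ProbabilityTheory Filter

theorem pareto_Ici {r : ℝ} (hr : 0 < r) {s : ℝ} (hs : 1 ≤ s) :
    paretoMeasure 1 r (Set.Ici s) = ENNReal.ofReal (s ^ (-r)) := by
  have hs0 : 0 < s := by linarith
  rw [paretoMeasure, withDensity_apply _ measurableSet_Ici]
  have h1 : ∫⁻ x in Set.Ici s, paretoPDF 1 r x =
      ∫⁻ x in Set.Ici s, ENNReal.ofReal (r * x ^ (-(r + 1))) := by
    apply setLIntegral_congr_fun measurableSet_Ici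
    intro x hx
    have hx1 : (1 : ℝ) ≤ x := hs.trans hx
    simp only
    rw [paretoPDF_of_le hx1, Real.one_rpow, mul_one]
  rw [h1, ← ofReal_integral_eq_lintegral_ofReal]
  · congr 1
    rw [integral_Ici_eq_integral_Ioi, integral_const_mul, integral_Ioi_rpow_of_lt (by linarith) hs0]
    have e : -(r + 1) + 1 = -r := by ring
    rw [e]
    field_simp
  · rw [← IntegrableOn, integrableOn_Ici_iff_integrableOn_Ioi]
    exact (integrableOn_Ioi_rpow_of_lt (by linarith) hs0).const_mul r
  · rw [EventuallyLE, ae_restrict_iff' measurableSet_Ici]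
    filter_upwards with x hx
    have : 0 < x := hs0.trans_le hx
    simp only [Pi.zero_apply]
    positivity

theorem pareto_Ioi {r : ℝ} (hr : 0 < r) {s : ℝ} (hs : 1 ≤ s) :
    paretoMeasure 1 r (Set.Ioi s) = ENNReal.ofReal (s ^ (-r)) := by
  rw [← pareto_Ici hr hs]
  apply measure_congr
  have h : (Set.Ioi s : Set ℝ) =ᵐ[volume] Set.Ici s := Ioi_ae_eq_Ici
  unfold paretoMeasure
  exact (withDensity_absolutelyContinuous _ _).ae_eq h

theorem exp_Iic (x : ℝ) : expMeasure 1 (Set.Iic x) =
    ENNReal.ofReal (if 0 ≤ x then 1 - Real.exp (-x) else 0) := by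
  have := isProbabilityMeasure_expMeasure (one_pos : (0 : ℝ) < 1)
  rw [← ofReal_cdf, cdf_expMeasure_eq one_pos]
  simp

theorem hyp_pareto_exp (d : ℕ) (hd : 1 ≤ d) (α lam τ : ℝ) (hα : (d : ℝ) < α) (hlam : 0 < lam)
    (hτ : 1 < τ) (hγ1 : 1 < α * (τ - 1) / d) (hγ2 : α * (τ - 1) / d < 2) :
    Hyp d α lam (τ - 1) (paretoMeasure 1 (τ - 1)) (expMeasure 1) := by
  have hd' : (1 : ℝ) ≤ d := by exact_mod_cast hd
  have hd0 : (0 : ℝ) < d := by linarith
  refine ⟨hd, hα, hlam, by linarith, ?_, ?_, isProbabilityMeasure_paretoMeasure one_pos (by linarith),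
    isProbabilityMeasure_expMeasure one_pos, fun t ht => pareto_Ici (by linarith) ht, ?_, ?_⟩
  · rwa [one_lt_div hd0] at hγ1
  · rwa [div_lt_iff₀ hd0] at hγ2
  · intro t ht0 ht1
    rw [exp_Iic, if_pos ht0]
    apply ENNReal.ofReal_le_ofReal
    -- t / 2 ≤ 1 - exp (-t)
    have h1 : Real.exp (-t) ≤ 1 / (1 + t) := by
      rw [Real.exp_neg, ← one_div]
      apply one_div_le_one_div_of_le (by linarith)
      linarith [Real.add_one_le_exp t]
    have h2 : 1 / (1 + t) ≤ 1 - t / 2 := by
      rw [div_le_iff₀ (by linarith)]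
      nlinarith
    linarith
  · intro t ht0
    rw [exp_Iic, if_pos ht0]
    apply ENNReal.ofReal_le_ofReal
    linarith [Real.add_one_le_exp (-t)]

theorem quantile_exp {u : ℝ} (h0 : 0 < u) (h1 : u < 1) :
    quantile (expMeasure 1) u = -Real.log (1 - u) := by
  unfold quantile
  have : {t : ℝ | u ≤ (expMeasure 1 (Set.Iic t)).toReal} = Set.Ici (-Real.log (1 - u)) := by
    ext t
    simp only [Set.mem_ofPred_eq, Set.mem_Ici]
    rw [exp_Iic]
    split_ifs with ht
    · rw [ENNReal.toReal_ofReal (by linarith [Real.exp_le_one_iff.2 (neg_nonpos.2 ht)])]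
      constructor
      · intro h
        have h2 : Real.exp (-t) ≤ 1 - u := by linarith
        have := Real.log_le_log (Real.exp_pos _) h2
        rw [Real.log_exp] at this
        linarith
      · intro h
        have h2 : -t ≤ Real.log (1 - u) := by linarith
        have := Real.exp_le_exp.2 h2
        rw [Real.exp_log (by linarith)] at this
        linarith
    · simp only [ENNReal.ofReal_zero, ENNReal.toReal_zero]
      constructor
      · intro h; linarith
      · intro h
        exfalso
        apply ht
        have : Real.log (1 - u) ≤ 0 := Real.log_nonpos (by linarith) (by linarith)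
        linarith
  rw [this, csInf_Ici]

theorem integrable_quantile : IntegrableOn
    (fun y => quantile (expMeasure 1) (Real.exp (-Real.exp y))) (Set.Ioi 0) := by
  have h1 : IntegrableOn (fun y : ℝ => -Real.log (1 - Real.exp (-Real.exp y))) (Set.Ioi 0) := by
    have hg : IntegrableOn (fun y : ℝ => 2 * Real.exp (-1 * y)) (Set.Ioi 0) :=
      (exp_neg_integrableOn_Ioi 0 one_pos).const_mul 2
    refine Integrable.mono' hg ?_ ?_
    · apply Measurable.aestronglyMeasurable
      fun_prop
    · rw [ae_restrict_iff' measurableSet_Ioi]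
      filter_upwards with y hy
      have hy0 : (0 : ℝ) < y := hy
      set x := Real.exp (-Real.exp y) with hx
      have hx0 : 0 < x := Real.exp_pos _
      have hxy : x ≤ Real.exp (-1 * y) * Real.exp (-1) := by
        rw [hx, ← Real.exp_add]
        apply Real.exp_le_exp.2
        linarith [Real.add_one_le_exp y]
      have he : Real.exp (-1) ≤ 1 / 2 := by
        rw [Real.exp_neg, ← one_div]
        apply one_div_le_one_div_of_le (by norm_num)
        linarith [Real.add_one_le_exp (1 : ℝ)]
      have hy1 : Real.exp (-1 * y) ≤ 1 := Real.exp_le_one_iff.2 (by linarith)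
      have hypos := Real.exp_pos (-1 * y)
      have hx2 : x ≤ 1 / 2 := by nlinarith [Real.exp_pos (-1)]
      have hlog : Real.log (1 - x) ≤ 0 := Real.log_nonpos (by linarith) (by linarith)
      have hlog2 : -Real.log (1 - x) ≤ x / (1 - x) := by
        have h3 := Real.one_sub_inv_le_log_of_pos (show 0 < 1 - x by linarith)
        have h4 : 1 - (1 - x)⁻¹ = -(x / (1 - x)) := by
          have : (1 - x) ≠ 0 := by linarith
          field_simp
          ring
        linarith
      rw [Real.norm_of_nonneg (by linarith)]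
      calc -Real.log (1 - x) ≤ x / (1 - x) := hlog2
        _ ≤ x / (1 / 2) := by gcongr; linarith
        _ = 2 * x := by ring
        _ ≤ 2 * (Real.exp (-1 * y) * 1) := by
            gcongr
            refine hxy.trans ?_
            gcongr
            linarith
        _ = _ := by ring
  refine h1.congr_fun ?_ measurableSet_Ioi
  intro y hy
  have hy0 : (0 : ℝ) < y := hy
  simp only
  rw [quantile_exp (Real.exp_pos _) ?_]
  rw [Real.exp_lt_one_iff]
  linarith [Real.exp_pos y]

end Pool.Agent.W823.SFP
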