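import Pool.Agent.W823.SFP.Sums

set_option autoImplicit false

namespace Pool.Agent.W823.SFP

open MeasureTheory ProbabilityTheory

variable {d : ℕ} {α lam : ℝ} {ω : Conf d}

theorem nrm_neg (x : Site d) : nrm (-x) = nrm x := by
  unfold nrm; simp

theorem nrm_sub_comm (x y : Site d) : nrm (x - y) = nrm (y - x) := by
  rw [← nrm_neg, neg_sub]

theorem mark_comm (x y : Site d) : mark ω x y = mark ω y x := by
  unfold mark; rw [Sym2.eq_swap]

theorem cost_comm (x y : Site d) : cost ω x y = cost ω y x := by
  unfold cost; rw [Sym2.eq_swap]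

theorem Joined.symm {x y : Site d} (h : Joined α lam ω x y) : Joined α lam ω y x := by
  unfold Joined at *
  rw [nrm_sub_comm y x, mark_comm y x]
  rcases h with h | ⟨h1, h2⟩
  · exact Or.inl h
  · refine Or.inr ⟨h1, ?_⟩
    rwa [show lam * wt ω y * wt ω x = lam * wt ω x * wt ω y by ring]

theorem Joined.ne {x y : Site d} (h : Joined α lam ω x y) : x ≠ y := by
  rintro rfl
  unfold Joined at h
  simp [nrm] at h
  linarith [h.1]

/-- The minimality of a shortest exploding path: the rest of the path after any of its vertices is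
not longer than any exploding path from this vertex. -/
theorem tail_le {x : Site d} {v : ℕ → Site d} (hv : IsShortest α lam ω x v) (l : ℕ)
    {a : ℕ → Site d} (ha : IsExploding α lam ω (v l) a) :
    ∑' n, ENNReal.ofReal (cost ω (v (n + l)) (v (n + 1 + l))) ≤ len ω a := by
  classical
  obtain ⟨⟨⟨hv0, hvi, hvj⟩, hvlen⟩, hmin⟩ := hv
  obtain ⟨⟨ha0, hai, haj⟩, halen⟩ := ha
  -- last index at which `a` is in `{v 0, …, v l}`
  let S : Finset (Site d) := (Finset.range (l + 1)).image v
  have hfin : {k : ℕ | a k ∈ S}.Finite := S.finite_toSet.preimage hai.injOn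
  have hne : {k : ℕ | a k ∈ S}.Nonempty :=
    ⟨0, by simp only [Set.mem_ofPred_eq, S, Finset.mem_image, Finset.mem_range]; exact ⟨l, by omega, ha0.symm⟩⟩
  obtain ⟨N, hN, hNmax⟩ := hfin.exists_maximalFor id _ hne
  simp only [Set.mem_ofPred_eq, S, Finset.mem_image, Finset.mem_range] at hN
  obtain ⟨t, ht, hvt⟩ := hN
  have hNmax' : ∀ k, N < k → ∀ i ≤ l, v i ≠ a k := by
    intro k hk i hi h
    have := hNmax (j := k) (by
      simp only [Set.mem_ofPred_eq, S, Finset.mem_image, Finset.mem_range]; exact ⟨i, by omega, h⟩)
      (by simpa using hk.le)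
    simp at this
    omega
  let w : ℕ → Site d := fun n => if n ≤ t then v n else a (N + (n - t))
  have hw1 : ∀ n ≤ t, w n = v n := fun n hn => by simp [w, hn]
  have hw2 : ∀ k, w (k + t) = a (N + k) := by
    intro k
    rcases Nat.eq_zero_or_pos k with rfl | hk
    · simp [w, hvt]
    · simp only [w]
      rw [if_neg (by omega)]
      congr 1; omega
  have hwp : IsPath α lam ω x w := by
    refine ⟨by rw [hw1 0 (by omega), hv0], ?_, ?_⟩
    · intro m n hmn
      rcases le_total m t with hm | hm <;> rcases le_total n t with hn | hn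
      · rw [hw1 m hm, hw1 n hn] at hmn; exact hvi hmn
      · obtain ⟨k, rfl⟩ : ∃ k, n = k + t := ⟨n - t, by omega⟩
        rw [hw1 m hm, hw2] at hmn
        rcases Nat.eq_zero_or_pos k with rfl | hk
        · rw [add_zero, ← hvt] at hmn; have := hvi hmn; omega
        · exact absurd hmn (hNmax' _ (by omega) m (by omega))
      · obtain ⟨k, rfl⟩ : ∃ k, m = k + t := ⟨m - t, by omega⟩
        rw [hw1 n hn, hw2] at hmn
        rcases Nat.eq_zero_or_pos k with rfl | hk
        · rw [add_zero, ← hvt] at hmn; have := hvi hmn; omega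
        · exact absurd hmn.symm (hNmax' _ (by omega) n (by omega))
      · obtain ⟨k, rfl⟩ : ∃ k, m = k + t := ⟨m - t, by omega⟩
        obtain ⟨k', rfl⟩ : ∃ k', n = k' + t := ⟨n - t, by omega⟩
        rw [hw2, hw2] at hmn
        have := hai hmn
        omega
    · intro n
      rcases lt_or_ge n t with hn | hn
      · rw [hw1 n hn.le, hw1 (n + 1) hn]; exact hvj n
      · obtain ⟨k, rfl⟩ : ∃ k, n = k + t := ⟨n - t, by omega⟩
        rw [hw2, show k + t + 1 = (k + 1) + t by ring, hw2]
        exact haj (N + k)
  have hsplit : ∀ (u : ℕ → Site d) (k : ℕ), len ω u =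
      ∑ n ∈ Finset.range k, ENNReal.ofReal (cost ω (u n) (u (n + 1))) +
      ∑' n, ENNReal.ofReal (cost ω (u (n + k)) (u (n + 1 + k))) := by
    intro u k
    unfold len
    rw [← (ENNReal.summable).sum_add_tsum_nat_add' (k := k)]
    congr 1
    apply tsum_congr
    intro n
    rw [show n + k + 1 = n + 1 + k by ring]
  have hwlen : len ω w ≤ ∑ n ∈ Finset.range l, ENNReal.ofReal (cost ω (v n) (v (n + 1))) +
      len ω a := by
    rw [hsplit w t]
    apply add_le_add
    · calc ∑ n ∈ Finset.range t, ENNReal.ofReal (cost ω (w n) (w (n + 1)))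
          = ∑ n ∈ Finset.range t, ENNReal.ofReal (cost ω (v n) (v (n + 1))) := by
            apply Finset.sum_congr rfl
            intro n hn
            rw [Finset.mem_range] at hn
            rw [hw1 n hn.le, hw1 (n + 1) hn]
        _ ≤ _ := Finset.sum_le_sum_of_subset (Finset.range_mono (by omega))
    · rw [hsplit a N]
      refine le_trans (le_of_eq ?_) le_add_self
      apply tsum_congr
      intro n
      rw [hw2, hw2, show N + n = n + N by ring, show N + (n + 1) = n + 1 + N by ring]
  have hpre : ∑ n ∈ Finset.range l, ENNReal.ofReal (cost ω (v n) (v (n + 1))) ≠ ⊤ := by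
    rw [ENNReal.sum_ne_top]; intro _ _; exact ENNReal.ofReal_ne_top
  have hwexp : IsExploding α lam ω x w := ⟨hwp, lt_of_le_of_lt hwlen
    (ENNReal.add_lt_top.2 ⟨lt_top_iff_ne_top.2 hpre, halen⟩)⟩
  have h1 := (hmin w hwexp).trans hwlen
  rw [hsplit v l] at h1
  exact (ENNReal.add_le_add_iff_left hpre).1 h1

theorem cost_le {x : Site d} {v : ℕ → Site d} (hv : IsShortest α lam ω x v) (l : ℕ)
    {a : ℕ → Site d} (ha : IsExploding α lam ω (v l) a) :
    ENNReal.ofReal (cost ω (v l) (v (l + 1))) ≤ len ω a := by
  refine le_trans ?_ (tail_le hv l ha)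
  have := ENNReal.le_tsum (f := fun n => ENNReal.ofReal (cost ω (v (n + l)) (v (n + 1 + l)))) 0
  simpa [add_comm] using this

theorem cost_le_len {v : ℕ → Site d} (l : ℕ) :
    ENNReal.ofReal (cost ω (v l) (v (l + 1))) ≤ len ω v :=
  ENNReal.le_tsum (f := fun n => ENNReal.ofReal (cost ω (v n) (v (n + 1)))) l

/-- If there is an exploding path from a neighbour of `u`, there is one from `u`. -/
theorem exists_exploding_of_joined {u u' : Site d} (h : Joined α lam ω u u')
    (h' : ∃ a, IsExploding α lam ω u' a) : ∃ a, IsExploding α lam ω u a := by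
  obtain ⟨a, ⟨ha0, hai, haj⟩, halen⟩ := h'
  by_cases hu : ∃ k, a k = u
  · obtain ⟨k, hk⟩ := hu
    refine ⟨fun n => a (n + k), ⟨by simpa using hk, fun m n hmn => by have := hai hmn; omega,
      fun n => ?_⟩, ?_⟩
    · simpa [add_right_comm] using haj (n + k)
    · refine lt_of_le_of_lt ?_ halen
      unfold len
      rw [← (ENNReal.summable).sum_add_tsum_nat_add' (k := k) (f := fun n => ENNReal.ofReal (cost ω (a n) (a (n + 1))))]
      refine le_trans (le_of_eq ?_) le_add_self
      apply tsum_congr
      intro n
      rw [show n + k + 1 = n + 1 + k by ring]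
  · push Not at hu
    refine ⟨fun n => Nat.casesOn n u a, ⟨rfl, ?_, ?_⟩, ?_⟩
    · intro m n hmn
      rcases m with _ | m <;> rcases n with _ | n
      · rfl
      · exact absurd hmn.symm (hu n)
      · exact absurd hmn (hu m)
      · exact congrArg Nat.succ (hai hmn)
    · intro n
      rcases n with _ | n
      · simpa [ha0] using h
      · exact haj n
    · unfold len
      rw [tsum_eq_zero_add' ENNReal.summable]
      exact ENNReal.add_lt_top.2 ⟨ENNReal.ofReal_lt_top, halen⟩

theorem joined_of_nrm_eq_one {x y : Site d} (h : nrm (x - y) = 1) : Joined α lam ω x y := Or.inl h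

/-- If there is an exploding path from some vertex, there is one from every vertex. -/
theorem exists_exploding_all (h : ∃ u a, IsExploding α lam ω u a) (x : Site d) :
    ∃ a, IsExploding α lam ω x a := by
  classical
  obtain ⟨u, hu⟩ := h
  have step : ∀ (y : Site d) (i : Fin d) (k : ℤ), (∃ a, IsExploding α lam ω y a) →
      ∃ a, IsExploding α lam ω (y + Pi.single i k) a := by
    intro y i k hy
    induction k using Int.induction_on with
    | zero => simpa using hy
    | succ k ih =>
      refine exists_exploding_of_joined (joined_of_nrm_eq_one ?_) ih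
      have : y + Pi.single i ((k : ℤ) + 1) - (y + Pi.single i (k : ℤ)) = Pi.single i 1 := by
        rw [Pi.single_add]; abel
      rw [this]
      unfold nrm
      rw [Finset.sum_eq_single i]
      · simp
      · intro j _ hj; simp [Pi.single_eq_of_ne hj]
      · simp
    | pred k ih =>
      refine exists_exploding_of_joined (joined_of_nrm_eq_one ?_) ih
      have : y + Pi.single i (-(k : ℤ) - 1) - (y + Pi.single i (-(k : ℤ))) = -Pi.single i 1 := by
        rw [Pi.single_sub]; abel
      rw [this, nrm_neg]
      unfold nrm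
      rw [Finset.sum_eq_single i]
      · simp
      · intro j _ hj; simp [Pi.single_eq_of_ne hj]
      · simp
  have key : ∀ s : Finset (Fin d), ∃ a, IsExploding α lam ω (u + ∑ i ∈ s, Pi.single i ((x - u) i)) a := by
    intro s
    induction s using Finset.induction_on with
    | empty => simpa using hu
    | insert i s hi ih =>
      rw [Finset.sum_insert hi, add_comm (Pi.single i _), ← add_assoc]
      exact step _ i _ ih
  have := key Finset.univ
  rwa [Finset.univ_sum_single, add_sub_cancel] at this

/-- A shortest exploding path exists as soon as the graph is locally finite and some exploding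
path exists. -/
theorem exists_shortest (hfin : ∀ x : Site d, {y | Joined α lam ω x y}.Finite) (x : Site d)
    (hex : ∃ a, IsExploding α lam ω x a) : ∃ v, IsShortest α lam ω x v := by
  classical
  let F : ℕ → Set (Site d) := fun n => Nat.rec {x} (fun _ A => ⋃ y ∈ A, {z | Joined α lam ω y z}) n
  have hF0 : F 0 = {x} := rfl
  have hFs : ∀ n, F (n + 1) = ⋃ y ∈ F n, {z | Joined α lam ω y z} := fun n => rfl
  have hFfin : ∀ n, (F n).Finite := by
    intro n
    induction n with
    | zero => rw [hF0]; exact Set.finite_singleton x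
    | succ n ih => rw [hFs]; exact ih.biUnion fun y _ => hfin y
  let K : Set (ℕ → Site d) := {v | IsPath α lam ω x v}
  have hKsub : K ⊆ Set.pi Set.univ F := by
    rintro v ⟨h0, -, hj⟩ n -
    induction n with
    | zero => rw [hF0]; exact h0
    | succ n ih => rw [hFs]; exact Set.mem_biUnion ih (hj n)
  have hclosed : IsClosed K := by
    have h1 : IsClosed {v : ℕ → Site d | v 0 = x} :=
      isClosed_eq (continuous_apply 0) continuous_const
    have h2 : IsClosed {v : ℕ → Site d | Function.Injective v} := by
      have : {v : ℕ → Site d | Function.Injective v} = ⋂ (m : ℕ) (n : ℕ) (_ : m ≠ n), {v | v m ≠ v n} := by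
        ext v
        simp only [Set.mem_ofPred_eq, Set.mem_iInter]
        exact ⟨fun h m n hmn he => hmn (h he), fun h m n he => by_contra fun hmn => h m n hmn he⟩
      rw [this]
      refine isClosed_iInter fun m => isClosed_iInter fun n => isClosed_iInter fun _ => ?_
      have : {v : ℕ → Site d | v m ≠ v n} =
          (fun v : ℕ → Site d => (v m, v n)) ⁻¹' {p | p.1 ≠ p.2} := rfl
      rw [this]
      exact (isClosed_discrete _).preimage (by fun_prop)
    have h3 : IsClosed {v : ℕ → Site d | ∀ n, Joined α lam ω (v n) (v (n + 1))} := by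
      have : {v : ℕ → Site d | ∀ n, Joined α lam ω (v n) (v (n + 1))} =
          ⋂ n, (fun v : ℕ → Site d => (v n, v (n + 1))) ⁻¹' {p | Joined α lam ω p.1 p.2} := by
        ext v; simp
      rw [this]
      exact isClosed_iInter fun n => (isClosed_discrete _).preimage (by fun_prop)
    exact (h1.inter (h2.inter h3))
  have hcompact : IsCompact K :=
    (isCompact_univ_pi fun n => (hFfin n).isCompact).of_isClosed_subset hclosed hKsub
  have hlsc : LowerSemicontinuous (fun v : ℕ → Site d => len ω v) := by
    unfold len
    apply lowerSemicontinuous_tsum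
    intro n
    apply Continuous.lowerSemicontinuous
    have : (fun v : ℕ → Site d => ENNReal.ofReal (cost ω (v n) (v (n + 1)))) =
        (fun p : Site d × Site d => ENNReal.ofReal (cost ω p.1 p.2)) ∘ (fun v => (v n, v (n + 1))) := rfl
    rw [this]
    exact continuous_of_discreteTopology.comp (by fun_prop)
  obtain ⟨a, ha⟩ := hex
  obtain ⟨v, hvK, hvmin⟩ := LowerSemicontinuousOn.exists_isMinOn ⟨a, ha.1⟩ hcompact
    (hlsc.lowerSemicontinuousOn K)
  refine ⟨v, ⟨hvK, lt_of_le_of_lt (hvmin ha.1) ha.2⟩, fun w hw => hvmin hw.1⟩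

end Pool.Agent.W823.SFP
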