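import Pool.Agent.W823.SFP.Defs

set_option autoImplicit false

namespace Pool.Agent.W823.SFP

open MeasureTheory ProbabilityTheory

/-- The sum over all tuples of a product is the product of the sums. -/
theorem tsum_fin_prod {A : Type*} (n : ℕ) (F : Fin n → A → ENNReal) :
    ∑' x : Fin n → A, ∏ l, F l (x l) = ∏ l, ∑' a, F l a := by
  induction n with
  | zero => simp
  | succ n ih =>
    rw [Fin.prod_univ_succ, ← (Fin.consEquiv fun _ => A).tsum_eq]
    rw [ENNReal.tsum_prod']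
    simp only [Fin.consEquiv_apply, Fin.prod_univ_succ, Fin.cons_zero, Fin.cons_succ]
    simp_rw [ENNReal.tsum_mul_left]
    rw [ih fun l => F l.succ, ENNReal.tsum_mul_right]

theorem step_bound (a : ℝ) (ha : 0 < a) (ha1 : a ≤ 1) (k : ℕ) (hk : 1 ≤ k) :
    ((k : ℝ) + 1) ^ (-(1 + a)) ≤ (1 / a) * ((k : ℝ) ^ (-a) - ((k : ℝ) + 1) ^ (-a)) := by
  have hk0 : (0 : ℝ) < k := by exact_mod_cast hk
  have h1 : (1 + (-(1 / ((k : ℝ) + 1)))) ^ a ≤ 1 + a * (-(1 / ((k : ℝ) + 1))) := by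
    apply rpow_one_add_le_one_add_mul_self _ ha.le ha1
    rw [neg_le_neg_iff, div_le_one (by positivity)]
    linarith
  have h2 : (1 + (-(1 / ((k : ℝ) + 1)))) = k / (k + 1) := by field_simp; ring
  rw [h2] at h1
  have h3 : ((k : ℝ) / (k + 1)) ^ a = (k : ℝ) ^ a / ((k : ℝ) + 1) ^ a :=
    Real.div_rpow hk0.le (by positivity) _
  rw [h3] at h1
  have hka : 0 < (k : ℝ) ^ a := by positivity
  have hka1 : 0 < ((k : ℝ) + 1) ^ a := by positivity
  have e1 : ((k : ℝ) + 1) ^ (-(1 + a)) = 1 / (((k : ℝ) + 1) * ((k : ℝ) + 1) ^ a) := by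
    rw [Real.rpow_neg (by positivity), Real.rpow_add (by positivity), Real.rpow_one, one_div]
  rw [e1, Real.rpow_neg hk0.le, Real.rpow_neg (by positivity)]
  have h4 : (k : ℝ) ^ a ≤ ((k : ℝ) + 1) ^ a :=
    Real.rpow_le_rpow hk0.le (by linarith) ha.le
  have h5 : a / (k + 1) * (1 / ((k : ℝ) + 1) ^ a) ≤ ((k : ℝ) ^ a)⁻¹ - (((k : ℝ) + 1) ^ a)⁻¹ := by
    have : ((k : ℝ) ^ a)⁻¹ - (((k : ℝ) + 1) ^ a)⁻¹ =
        (1 - (k : ℝ) ^ a / ((k : ℝ) + 1) ^ a) * ((k : ℝ) ^ a)⁻¹ := by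
      field_simp
    rw [this]
    apply mul_le_mul
    · rw [mul_neg, mul_one_div] at h1; linarith
    · rw [one_div]; exact inv_anti₀ hka h4
    · positivity
    · have := div_nonneg hka.le hka1.le
      have h6 : (k : ℝ) ^ a / ((k : ℝ) + 1) ^ a ≤ 1 := (div_le_one hka1).2 h4
      linarith
  calc 1 / (((k : ℝ) + 1) * ((k : ℝ) + 1) ^ a)
      = (1 / a) * (a / (k + 1) * (1 / ((k : ℝ) + 1) ^ a)) := by field_simp
    _ ≤ _ := by gcongr

theorem nat_sum_bound (a : ℝ) (ha : 0 < a) (ha1 : a ≤ 1) :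
    ∑' k : ℕ, ENNReal.ofReal (((k : ℝ) + 1) ^ (-(1 + a))) ≤ ENNReal.ofReal (2 / a) := by
  have key : ∀ n : ℕ, ∑ k ∈ Finset.range (n + 1), ((k : ℝ) + 1) ^ (-(1 + a)) ≤
      1 + (1 / a) * (1 - ((n : ℝ) + 1) ^ (-a)) := by
    intro n
    induction n with
    | zero => simp
    | succ n ih =>
      rw [Finset.sum_range_succ]
      have := step_bound a ha ha1 (n + 1) (by omega)
      push_cast at this ⊢
      linarith
  apply ENNReal.tsum_le_of_sum_range_le
  intro n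
  rw [← ENNReal.ofReal_sum_of_nonneg (fun k _ => by positivity)]
  apply ENNReal.ofReal_le_ofReal
  rcases n with _ | n
  · simp; positivity
  · refine (key n).trans ?_
    have h1 : (0 : ℝ) ≤ ((n : ℝ) + 1) ^ (-a) := by positivity
    have h2 : 1 ≤ 1 / a := (one_le_div ha).2 ha1
    have h3 : (1 / a) * (1 - ((n : ℝ) + 1) ^ (-a)) ≤ 1 / a := by
      have : 0 ≤ (1 / a) * ((n : ℝ) + 1) ^ (-a) := by positivity
      linarith
    have h4 : 2 / a = 1 / a + 1 / a := by ring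
    linarith

/-- The one-dimensional function `max(1,|k|)^(-(1+a))`. -/
noncomputable def gd (a : ℝ) (k : ℤ) : ENNReal := ENNReal.ofReal ((max 1 |(k : ℝ)|) ^ (-(1 + a)))

theorem int_sum_bound (a : ℝ) (ha : 0 < a) (ha1 : a ≤ 1) :
    ∑' k : ℤ, gd a k ≤ ENNReal.ofReal (10 / a) := by
  rw [tsum_of_nat_of_neg_add_one ENNReal.summable ENNReal.summable]
  have h1 : ∀ n : ℕ, gd a (n : ℤ) ≤ 4 * ENNReal.ofReal (((n : ℝ) + 1) ^ (-(1 + a))) := by
    intro n
    unfold gd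
    rw [show (4 : ENNReal) = ENNReal.ofReal 4 by simp, ← ENNReal.ofReal_mul (by norm_num)]
    apply ENNReal.ofReal_le_ofReal
    have h2 : ((n : ℝ) + 1) / 2 ≤ max 1 |(((n : ℤ) : ℝ))| := by
      rw [show (((n : ℤ) : ℝ)) = (n : ℝ) by simp, abs_of_nonneg (by positivity)]
      rcases le_total (n : ℝ) 1 with h | h
      · exact le_trans (by linarith) (le_max_left _ _)
      · exact le_trans (by linarith) (le_max_right _ _)
    have h3 : (max 1 |(((n : ℤ) : ℝ))|) ^ (-(1 + a)) ≤ (((n : ℝ) + 1) / 2) ^ (-(1 + a)) :=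
      Real.rpow_le_rpow_of_nonpos (by positivity) h2 (by linarith)
    refine h3.trans ?_
    rw [Real.div_rpow (by positivity) (by norm_num), Real.rpow_neg (by norm_num : (0:ℝ) ≤ 2),
      div_inv_eq_mul, mul_comm]
    apply mul_le_mul_of_nonneg_right _ (by positivity)
    calc (2 : ℝ) ^ (1 + a) ≤ 2 ^ (2 : ℝ) :=
          Real.rpow_le_rpow_of_exponent_le (by norm_num) (by linarith)
      _ = 4 := by norm_num
  have h2 : ∀ n : ℕ, gd a (-((n : ℤ) + 1)) = ENNReal.ofReal (((n : ℝ) + 1) ^ (-(1 + a))) := by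
    intro n
    unfold gd
    congr 2
    push_cast
    rw [abs_of_nonpos (by linarith [(Nat.cast_nonneg n : (0:ℝ) ≤ n)]), max_eq_right]
    · ring
    · linarith [(Nat.cast_nonneg n : (0:ℝ) ≤ n)]
  simp_rw [h2]
  calc ∑' n : ℕ, gd a (n : ℤ) + ∑' n : ℕ, ENNReal.ofReal (((n : ℝ) + 1) ^ (-(1 + a)))
      ≤ ∑' n : ℕ, 4 * ENNReal.ofReal (((n : ℝ) + 1) ^ (-(1 + a))) +
        ∑' n : ℕ, ENNReal.ofReal (((n : ℝ) + 1) ^ (-(1 + a))) := by
        gcongr with n
        exact h1 n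
    _ ≤ 4 * ENNReal.ofReal (2 / a) + ENNReal.ofReal (2 / a) := by
        rw [ENNReal.tsum_mul_left]
        gcongr <;> exact nat_sum_bound a ha ha1
    _ = ENNReal.ofReal (10 / a) := by
        rw [show (4 : ENNReal) = ENNReal.ofReal 4 by simp, ← ENNReal.ofReal_mul (by norm_num),
          ← ENNReal.ofReal_add (by positivity) (by positivity)]
        congr 1; ring

/-- The sum over `ℤ^d` of the product function. -/
theorem lattice_sum_bound (d : ℕ) (a : ℝ) (ha : 0 < a) (ha1 : a ≤ 1) :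
    ∑' x : Site d, ∏ i, gd a (x i) ≤ ENNReal.ofReal ((10 / a) ^ d) := by
  rw [tsum_fin_prod d fun _ => gd a, Finset.prod_const, Finset.card_univ, Fintype.card_fin,
    ENNReal.ofReal_pow (by positivity)]
  gcongr
  exact int_sum_bound a ha ha1

theorem nrm_nonneg {d : ℕ} (x : Site d) : 0 ≤ nrm x := Real.sqrt_nonneg _

theorem abs_le_nrm {d : ℕ} (x : Site d) (i : Fin d) : |(x i : ℝ)| ≤ nrm x := by
  unfold nrm
  rw [← Real.sqrt_sq_eq_abs]
  apply Real.sqrt_le_sqrt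
  exact Finset.single_le_sum (f := fun i => (x i : ℝ) ^ 2) (fun j _ => sq_nonneg _)
    (Finset.mem_univ i)

theorem one_le_nrm {d : ℕ} {x : Site d} (hx : x ≠ 0) : 1 ≤ nrm x := by
  obtain ⟨i, hi⟩ := Function.ne_iff.1 hx
  refine le_trans ?_ (abs_le_nrm x i)
  have : (1 : ℤ) ≤ |x i| := Int.one_le_abs hi
  exact_mod_cast this

/-- The Euclidean norm dominates: `‖x‖^{-(d (1+a))} ≤ ∏ max(1,|x_i|)^{-(1+a)}`. -/
theorem nrm_rpow_le {d : ℕ} {x : Site d} (hx : x ≠ 0) (a : ℝ) (ha : 0 < a) :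
    ENNReal.ofReal (nrm x ^ (-((d : ℝ) * (1 + a)))) ≤ ∏ i, gd a (x i) := by
  have h1 := one_le_nrm hx
  have h0 : 0 < nrm x := by linarith
  unfold gd
  rw [← ENNReal.ofReal_prod_of_nonneg (fun i _ => by positivity)]
  apply ENNReal.ofReal_le_ofReal
  have : nrm x ^ (-((d : ℝ) * (1 + a))) = ∏ i : Fin d, nrm x ^ (-(1 + a)) := by
    rw [Finset.prod_const, Finset.card_univ, Fintype.card_fin, ← Real.rpow_natCast,
      ← Real.rpow_mul h0.le]
    congr 1; ring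
  rw [this]
  apply Finset.prod_le_prod (fun i _ => by positivity)
  intro i _
  apply Real.rpow_le_rpow_of_nonpos (by positivity) (max_le h1 (abs_le_nrm x i)) (by linarith)

end Pool.Agent.W823.SFP
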